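import Pool.Agent.Helper39.DK.IDefs
import Pool.Agent.Helper43.DK.COREM

/-! COREMB: COREM with an arbitrary bound for the measure of the bad parameters. -/

set_option autoImplicit false

namespace Pool.Agent.Helper70.DK

open Finset MeasureTheory

theorem st_COREMB (hC : ST_CLAIM) (hG : ST_DGOOD) (hM : ST_DMEAS) (hS : ST_SUP) (hF : ST_FRM) (hE : ST_E1) :
    ST_COREMB := by
  classical
  intro m B R ε0 ε1 β hm hB hR hε0 hε1 hβ
  set L := Real.log B with hL
  have hLpos : 0 < L := Real.log_pos (by exact_mod_cast hB)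
  set C : ℕ := m * (2 * m ^ 2 + 1) with hCdef
  obtain ⟨μ, hμ1, hμ2⟩ : ∃ μ : ℕ, 1 ≤ μ ∧ C + m + 1 ≤ 2 ^ μ :=
    ⟨C + m + 1, by omega, Nat.lt_two_pow_self.le⟩
  obtain ⟨ϑ, hϑ, hϑ'⟩ := hC m B μ R ε0 hm hB hR hε0 hμ1 m le_rfl (ε1 / 4) (ε1 / (8 * (m + 1)))
    (by positivity) (by positivity)
  obtain ⟨n0, hn0⟩ := hG m B C (2 ^ μ) R ε0 hm hB hR hε0 hμ2
  obtain ⟨c0, hc1, hc2, hc3⟩ : ∃ c0 : ℕ, n0 ≤ 2 ^ c0 ∧ 2 * (m : ℝ) ^ (m + 2) / ϑ * (1 / 2) ^ c0 ≤ β ∧
      cc m B R ≤ 2 ^ c0 * L := by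
    have h1 : ∀ᶠ c : ℕ in Filter.atTop, n0 ≤ 2 ^ c :=
      (tendsto_pow_atTop_atTop_of_one_lt (r := (2 : ℕ)) (by norm_num)).eventually_ge_atTop n0
    have h2 : ∀ᶠ c : ℕ in Filter.atTop, 2 * (m : ℝ) ^ (m + 2) / ϑ * (1 / 2) ^ c ≤ β := by
      have ht : Filter.Tendsto (fun c : ℕ => 2 * (m : ℝ) ^ (m + 2) / ϑ * (1 / 2 : ℝ) ^ c) Filter.atTop
          (nhds (2 * (m : ℝ) ^ (m + 2) / ϑ * 0)) :=
        (tendsto_pow_atTop_nhds_zero_of_lt_one (by norm_num) (by norm_num)).const_mul _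
      rw [mul_zero] at ht
      exact (ht.eventually (gt_mem_nhds hβ)).mono (fun c hc => hc.le)
    have h3 : ∀ᶠ c : ℕ in Filter.atTop, cc m B R / L ≤ (2 : ℝ) ^ c :=
      (tendsto_pow_atTop_atTop_of_one_lt (r := (2 : ℝ)) (by norm_num)).eventually_ge_atTop _
    obtain ⟨c, h1, h2, h3⟩ := (h1.and (h2.and h3)).exists
    refine ⟨c, h1, h2, ?_⟩
    rwa [div_le_iff₀ hLpos] at h3
  obtain ⟨a0, ha0, hA⟩ := hϑ' c0
  refine ⟨max (2 ^ a0 + 1) (⌈2 * (2 ^ a0 * m + cc m B R / L) / ε1⌉₊), ?_⟩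
  intro N hN ι _ _ σ hOk hcard
  have hN1 : 2 ^ a0 + 1 ≤ N := le_trans (le_max_left _ _) hN
  have hN2 : 2 * (2 ^ a0 * m + cc m B R / L) / ε1 ≤ N :=
    (Nat.le_ceil _).trans (by exact_mod_cast le_trans (le_max_right _ _) hN)
  -- the case of negative entropy bound
  rcases le_or_gt (m - ε0 - ε1 : ℝ) 0 with hneg | hpos
  · have : {t : ℝ | 0 ≤ t ∧ t ≤ 1 ∧ ent (univ : Finset (Fin N → ι)) (fun u => fl (σ.P B t 0 N u)) <
        (m - ε0 - ε1) * N * Real.log B} = ∅ := by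
      ext t
      simp only [Set.mem_ofPred_eq, Set.mem_empty_iff_false, iff_false, not_and, not_lt]
      intro _ _
      have h1 := hE.2.2.1 (Fin N → ι) (Fin m → ℤ) univ (fun u => fl (σ.P B t 0 N u))
      have h2 : (m - ε0 - ε1) * N * Real.log B ≤ 0 := by
        have : (0 : ℝ) ≤ N * L := by positivity
        have h3 : (m - ε0 - ε1) * (N * L) ≤ 0 := mul_nonpos_of_nonpos_of_nonneg hneg this
        rw [← hL]
        linarith
      linarith
    rw [this]
    simp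
  have hN0 : 1 < N := by
    have : 1 ≤ 2 ^ a0 := Nat.one_le_two_pow
    omega
  set A := Nat.clog 2 N with hAdef
  have hNA : N ≤ 2 ^ A := Nat.le_pow_clog (by norm_num) N
  have hAN : 2 ^ A < 2 * N := by
    have h1 : 2 ^ A.pred < N := Nat.pow_pred_clog_lt_self (by norm_num) hN0
    have h2 : A ≠ 0 := by
      intro h
      rw [h] at hNA
      simp at hNA
      omega
    have h3 : A = A.pred + 1 := (Nat.succ_pred h2).symm
    rw [h3, pow_succ]
    omega
  have ha0A : a0 ≤ A := by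
    have h1 : 2 ^ a0 < 2 ^ A := by omega
    exact ((Nat.pow_lt_pow_iff_right (by norm_num)).1 h1).le
  -- exceptional sets
  set S : ℕ → ℕ → Set ℝ := fun c q => {t | ¬ σ.Dio B C t (q * 2 ^ c) (2 ^ c)} with hSdef
  have hcardB : Fintype.card ι ≤ B ^ m := by
    have hinj := hOk.2.1 0
    let g : ι → (Fin m → Fin B) := fun s c => ⟨(σ.dg 0 s c).toNat, by
      have h1 := (hOk.1 0 s c).1
      have h2 := (hOk.1 0 s c).2
      omega⟩
    have hg : Function.Injective g := by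
      intro s s' hss
      apply hinj
      funext c
      have h1 := congrFun hss c
      simp only [g, Fin.mk.injEq] at h1
      have h2 := (hOk.1 0 s c).1
      have h3 := (hOk.1 0 s' c).1
      omega
    have := Fintype.card_le_of_injective g hg
    simpa using this
  have hSm : ∀ c q, volume (S c q) ≤ ENNReal.ofReal (2 * (m : ℝ) ^ (m + 2) / (B : ℝ) ^ (1 * 2 ^ c)) := by
    intro c q
    exact hM m 1 B ι σ (q * 2 ^ c) (2 ^ c) hm hB hcardB
  have hsub : {t : ℝ | 0 ≤ t ∧ t ≤ 1 ∧ ent (univ : Finset (Fin N → ι)) (fun u => fl (σ.P B t 0 N u)) <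
        (m - ε0 - ε1) * N * Real.log B} ⊆ ⋃ c ∈ Finset.Icc c0 a0,
        {t : ℝ | ϑ * ((2 ^ (A - c) : ℕ) : ℝ) <
          (((Finset.range (2 ^ (A - c))).filter (fun q => t ∈ S c q)).card : ℝ)} := by
    rintro t ⟨ht0, ht1, htlt⟩
    by_contra hcon
    simp only [Set.mem_iUnion, Set.mem_ofPred_eq, not_exists, not_lt, Finset.mem_Icc] at hcon
    have hbad := hA A ha0A ι σ t hOk ht0 ht1 (by
      intro c hcc1 hcc2
      have h1 := hcon c ⟨hcc1, hcc2⟩
      push_cast at h1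
      refine le_trans ?_ h1
      have h2 : (Finset.range (2 ^ (A - c))).filter (fun q => ¬ σ.Good B ε0 t (2 ^ μ) (q * 2 ^ c) (2 ^ c)) ⊆
          (Finset.range (2 ^ (A - c))).filter (fun q => t ∈ S c q) := by
        intro q hq
        rw [Finset.mem_filter] at hq ⊢
        refine ⟨hq.1, ?_⟩
        intro hD
        apply hq.2
        exact hn0 ι σ t (q * 2 ^ c) (2 ^ c) hOk ht0 ht1 hcard
          (hc1.trans (Nat.pow_le_pow_right (by norm_num) hcc1)) hD
      exact_mod_cast Finset.card_le_card h2) a0 le_rfl ha0A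
    have s := hS m B R t ι σ m hm hB hR ht0 ht1 hOk le_rfl
    have hFr : Frame (1 : Matrix (Fin m) (Fin m) ℝ) := hF.2.2.2.2.2.1 m
    have hcc' : cc m B R ≤ 2 ^ a0 * L := by
      refine hc3.trans ?_
      gcongr
      norm_num
    have key := corem_num σ ε0 ε1 L a0 A N hL hLpos hε0 hε1 hpos hAN hNA ha0A hcc' hN2
      (fun i n1 n2 => s.1 1 i n1 n2 hFr) (fun i n => (s.2.1 1 i n hFr).1) (fun i n => (s.2.2.2.1 i n).1)
      (fun i n => s.2.2.2.2.1 1 i n hFr) (by convert hbad)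
    have hent : σ.hh B t (1 : Matrix (Fin m) (Fin m) ℝ) 0 N =
        ent (univ : Finset (Fin N → ι)) (fun u => fl (σ.P B t 0 N u)) := by
      rw [Sys.hh]
      simp only [Matrix.one_mulVec]
    rw [hent] at key
    rw [← hL] at htlt
    linarith
  refine (measure_mono hsub).trans ?_
  refine (measure_biUnion_finset_le _ _).trans ?_
  calc ∑ c ∈ Finset.Icc c0 a0, volume {t : ℝ | ϑ * ((2 ^ (A - c) : ℕ) : ℝ) <
          (((Finset.range (2 ^ (A - c))).filter (fun q => t ∈ S c q)).card : ℝ)}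
      ≤ ∑ c ∈ Finset.Icc c0 a0, ENNReal.ofReal (2 * (m : ℝ) ^ (m + 2) / (B : ℝ) ^ (1 * 2 ^ c) / ϑ) := by
        apply Finset.sum_le_sum
        intro c _
        have h1 := corem_markov (2 ^ (A - c)) (S c) _ ϑ hϑ (fun q _ => hSm c q)
        refine le_trans (measure_mono ?_) h1
        intro t ht
        simp only [Set.mem_ofPred_eq] at ht ⊢
        convert ht
    _ = ENNReal.ofReal (∑ c ∈ Finset.Icc c0 a0, 2 * (m : ℝ) ^ (m + 2) / (B : ℝ) ^ (1 * 2 ^ c) / ϑ) := by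
        rw [ENNReal.ofReal_sum_of_nonneg]
        intro c _
        positivity
    _ ≤ ENNReal.ofReal β := by
        apply ENNReal.ofReal_le_ofReal
        calc ∑ c ∈ Finset.Icc c0 a0, 2 * (m : ℝ) ^ (m + 2) / (B : ℝ) ^ (1 * 2 ^ c) / ϑ
            ≤ ∑ c ∈ Finset.Icc c0 a0, 2 * (m : ℝ) ^ (m + 2) / ϑ * (1 / 2) ^ (c + 1) := by
              apply Finset.sum_le_sum
              intro c _
              have h1 := corem_two_pow B c hB
              have h2 : 2 * (m : ℝ) ^ (m + 2) / (B : ℝ) ^ (1 * 2 ^ c) / ϑ ≤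
                  2 * (m : ℝ) ^ (m + 2) / (2 : ℝ) ^ (c + 1) / ϑ := by gcongr
              refine h2.trans (le_of_eq ?_)
              rw [one_div, inv_pow]
              field_simp
          _ = 2 * (m : ℝ) ^ (m + 2) / ϑ * ∑ c ∈ Finset.Icc c0 a0, (1 / 2 : ℝ) ^ (c + 1) := by
              rw [Finset.mul_sum]
          _ ≤ 2 * (m : ℝ) ^ (m + 2) / ϑ * (1 / 2 : ℝ) ^ c0 := by
              gcongr
              exact corem_geom c0 a0
          _ ≤ β := hc2

end Pool.Agent.Helper70.DK
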