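import Pool.Agent.Helper39.DK.IDefs

/-! ENTSUB: entropy and the number of values on a subset. -/

set_option autoImplicit false

namespace Pool.Agent.Helper70.DK

open Finset MeasureTheory

open Classical in
theorem entsub_mem_fib {Ω β : Type} (S : Finset Ω) (g : Ω → β) (c : β) (x : Ω) :
    x ∈ fib S g c ↔ x ∈ S ∧ g x = c := by
  unfold fib
  exact Finset.mem_filter

theorem entsub_fib_sub {Ω β : Type} (S : Finset Ω) (g : Ω → β) (c : β) : fib S g c ⊆ S := by
  intro x hx
  exact ((entsub_mem_fib S g c x).1 hx).1

theorem st_ENTSUB (hE1 : ST_E1) (hE2 : ST_E2) (hE3 : ST_E3) : ST_ENTSUB := by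
  classical
  intro Ω α S S' f F lam hS' hne hF hlam hlS hFS
  have hSne : S.Nonempty := hne.mono hS'
  have hS0 : (0 : ℝ) < S.card := by exact_mod_cast hSne.card_pos
  have hlogS : 0 ≤ Real.log S.card := Real.log_natCast_nonneg _
  have hmono : ∀ n : ℕ, n ≤ S.card → Real.log n ≤ Real.log S.card := by
    intro n hn
    rcases Nat.eq_zero_or_pos n with h | h
    · rw [h]; simpa using hlogS
    · exact Real.log_le_log (by exact_mod_cast h) (by exact_mod_cast hn)
  let g : Ω → Bool := fun x => decide (x ∈ S')
  have h1 : ent S f ≤ ent S (fun ω => (f ω, g ω)) :=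
    hE1.1 Ω α (α × Bool) S f _ (fun x _ y _ h => (Prod.ext_iff.1 h).1)
  have h2 : ent S g ≤ Real.log 2 := by
    have := hE2.2.2 Ω Bool S g univ (fun x _ => mem_univ _)
    simpa using this
  have h3 := hE3 Ω α Bool S f g univ (fun x _ => mem_univ _)
  have hft : fib S g true = S' := by
    ext x
    rw [entsub_mem_fib]
    simp only [g, decide_eq_true_eq]
    exact ⟨fun h => h.2, fun h => ⟨hS' h, h⟩⟩
  have hff : ((fib S g false).card : ℝ) = S.card - S'.card := by
    have e : fib S g false = S \ S' := by
      ext x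
      rw [entsub_mem_fib, Finset.mem_sdiff]
      simp only [g, decide_eq_false_iff_not]
    have e2 : (fib S g false).card = (S \ S').card := congrArg Finset.card e
    have e3 : (S \ S').card + S'.card = S.card := card_sdiff_add_card_eq_card hS'
    rw [e2]
    have e4 : (((S \ S').card : ℕ) : ℝ) + (S'.card : ℝ) = S.card := by exact_mod_cast e3
    linarith
  rw [Fintype.sum_bool, hft, hff] at h3
  have h4 : ent S' f ≤ Real.log F.card := hE2.2.2 Ω α S' f F hF
  have h5 : ent (fib S g false) f ≤ Real.log S.card := by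
    have h := hE2.2.2 Ω α (fib S g false) f ((fib S g false).image f)
      (fun x hx => mem_image_of_mem _ hx)
    refine h.trans (hmono _ ?_)
    exact card_image_le.trans (card_le_card (entsub_fib_sub _ _ _))
  have hFl := hmono _ hFS
  set x : ℝ := (S'.card : ℝ) / S.card with hx
  have hx1 : x ≤ 1 := by
    rw [hx, div_le_one hS0]
    exact_mod_cast card_le_card hS'
  have hx0 : 0 ≤ x := by positivity
  have hxl : lam ≤ x := by rw [hx, le_div_iff₀ hS0]; exact hlS
  have h6 : ((S.card : ℝ) - S'.card) / S.card = 1 - x := by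
    rw [hx]; field_simp
  rw [h6] at h3
  have h7 : cent S f g ≤ x * Real.log F.card + (1 - x) * Real.log S.card := by
    rw [h3]
    have a1 : x * ent S' f ≤ x * Real.log F.card := mul_le_mul_of_nonneg_left h4 hx0
    have a2 : (1 - x) * ent (fib S g false) f ≤ (1 - x) * Real.log S.card :=
      mul_le_mul_of_nonneg_left h5 (by linarith)
    linarith
  have h8 : ent S (fun ω => (f ω, g ω)) = cent S f g + ent S g := by
    unfold cent
    ring
  have h9 : (x - lam) * (Real.log F.card - Real.log S.card) ≤ 0 :=
    mul_nonpos_of_nonneg_of_nonpos (by linarith) (by linarith)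
  nlinarith

end Pool.Agent.Helper70.DK
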