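import Pool.Agent.Helper70.DK.Defs3

/-! Intermediate dimensions of sticky Kakeya sets: statements. -/

set_option autoImplicit false

namespace Pool.Agent.Helper70.DK

open Finset MeasureTheory

/-- (COREMB) COREM with an arbitrary bound for the measure of the bad parameters -/
def ST_COREMB : Prop :=
  ∀ (m B : ℕ) (R ε0 ε1 β : ℝ), 1 ≤ m → 2 ≤ B → 0 ≤ R → 0 ≤ ε0 → 0 < ε1 → 0 < β → ∃ N0 : ℕ, ∀ N, N0 ≤ N →
  ∀ (ι : Type) [Fintype ι] [Nonempty ι] (σ : Sys m ι), σ.Ok B R →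
    (m - ε0) * Real.log B ≤ Real.log (Fintype.card ι) →
    volume {t : ℝ | 0 ≤ t ∧ t ≤ 1 ∧ ent (univ : Finset (Fin N → ι)) (fun u => fl (σ.P B t 0 N u)) <
      (m - ε0 - ε1) * N * Real.log B} ≤ ENNReal.ofReal β

/-- (VOLB) many separated points on the slices give a large neighbourhood -/
def ST_VOLB : Prop :=
  ∀ m : ℕ, ∃ c : ℝ, 0 < c ∧ ∀ (E : Set (EuclideanSpace ℝ (Fin (m + 1)))) (T : Set ℝ) (ρ X lam : ℝ),
    0 < ρ → ρ ≤ 1 → 0 ≤ X → 0 ≤ lam → ENNReal.ofReal lam ≤ volume T →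
    (∀ t ∈ T, ∃ (F : Finset (Fin m → ℝ)) (x0 : Fin m → ℝ), (∀ y ∈ F, pt y t ∈ E) ∧
      (∀ y ∈ F, ∀ y' ∈ F, fl (fun c => (y c - x0 c) / ρ) = fl (fun c => (y' c - x0 c) / ρ) → y = y') ∧
      X ≤ F.card) →
    ENNReal.ofReal (c * lam * X * ρ ^ m) ≤ volume (Metric.thickening ρ E)

/-- (ENTSUB) entropy and the number of values on a subset -/
def ST_ENTSUB : Prop :=
  ∀ (Ω α : Type) (S S' : Finset Ω) (f : Ω → α) (F : Finset α) (lam : ℝ), S' ⊆ S → S'.Nonempty →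
    (∀ x ∈ S', f x ∈ F) → 0 ≤ lam → lam * S.card ≤ S'.card → F.card ≤ S.card →
    ent S f ≤ Real.log 2 + lam * Real.log F.card + (1 - lam) * Real.log S.card

open Classical in
/-- (ISC) one scale: `A` contains, for many heights `t`, the points of many words -/
def ST_ISC : Prop :=
  ∀ (m b Lp Np Q : ℕ) (R e : ℝ), 1 ≤ m → 2 ≤ b → 1 ≤ Lp → 1 ≤ Np → 1 ≤ Q → 0 ≤ R → 0 < e →
    Real.log Np / (Lp * Real.log b) < m →
    ∃ (B K N0 : ℕ) (c : ℝ), 2 ≤ B ∧ 1 ≤ K ∧ 0 < c ∧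
    ∀ (a : (Fin m → ℝ) → Fin m → ℝ), Sticky a b R → Cplx a b Lp Np →
    ∃ y : (n : ℕ) → (Fin n → Fin K) → ℝ → Fin m → ℝ,
      (∀ n w, ∃ x ∈ cube m, ∀ t c, y n w t c = a x c + t * x c) ∧
      ∀ N, N0 ≤ N → ∀ (r : ℕ) (A : Set (EuclideanSpace ℝ (Fin (m + 1)))) (T : Set ℝ),
        T ⊆ Set.Icc 0 1 → ENNReal.ofReal (1 / Q) ≤ volume T →
        (∀ t ∈ T, (K : ℝ) ^ (N + r) ≤ Q * (((univ : Finset (Fin (N + r) → Fin K)).filter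
          (fun w => pt (y (N + r) w t) t ∈ A)).card : ℝ)) →
        ENNReal.ofReal (c * ((B : ℝ)⁻¹ ^ N) ^ (Real.log Np / (Lp * Real.log b) + e)) ≤
          volume (Metric.thickening ((B : ℝ)⁻¹ ^ N) A)

/-- (I) intermediate dimensions of sticky Kakeya sets are at least `n` minus the pattern entropy -/
def ST_IFIN : Prop :=
  ∀ (m b L N : ℕ) (R θ s : ℝ), 1 ≤ m → 2 ≤ b → 1 ≤ L → 1 ≤ N → 0 ≤ R → 0 < θ → θ ≤ 1 →
    s < m + 1 - Real.log N / (L * Real.log b) → ∃ δ0 : ℝ, 0 < δ0 ∧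
    ∀ (a : (Fin m → ℝ) → Fin m → ℝ) (E : Set (EuclideanSpace ℝ (Fin (m + 1)))), Sticky a b R → Cplx a b L N →
      (∀ x ∈ cube m, ∀ t : ℝ, 0 ≤ t → t ≤ 1 → pt (fun c => a x c + t * x c) t ∈ E) →
      ∀ δ : ℝ, 0 < δ → δ ≤ δ0 → ∀ (ι : Type) [Countable ι] (U : ι → Set (EuclideanSpace ℝ (Fin (m + 1)))),
        E ⊆ ⋃ i, U i →
        (∀ i, ENNReal.ofReal (δ ^ (1 / θ)) ≤ Metric.ediam (U i) ∧ Metric.ediam (U i) ≤ ENNReal.ofReal δ) →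
        1 ≤ ∑' i, Metric.ediam (U i) ^ s

/-- (I) for segments over `[t0, t1]` -/
def ST_ITHM : Prop :=
  ∀ (m b L N : ℕ) (R t0 t1 θ s : ℝ), 1 ≤ m → 2 ≤ b → 1 ≤ L → 1 ≤ N → 0 ≤ R → t0 < t1 → 0 < θ → θ ≤ 1 →
    s < m + 1 - Real.log N / (L * Real.log b) → ∃ δ0 : ℝ, 0 < δ0 ∧
    ∀ (a : (Fin m → ℝ) → Fin m → ℝ) (E : Set (EuclideanSpace ℝ (Fin (m + 1)))), Sticky a b R → Cplx a b L N →
      (∀ x ∈ cube m, ∀ t : ℝ, t0 ≤ t → t ≤ t1 → pt (fun c => a x c + t * x c) t ∈ E) →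
      ∀ δ : ℝ, 0 < δ → δ ≤ δ0 → ∀ (ι : Type) [Countable ι] (U : ι → Set (EuclideanSpace ℝ (Fin (m + 1)))),
        E ⊆ ⋃ i, U i →
        (∀ i, ENNReal.ofReal (δ ^ (1 / θ)) ≤ Metric.ediam (U i) ∧ Metric.ediam (U i) ≤ ENNReal.ofReal δ) →
        1 ≤ ∑' i, Metric.ediam (U i) ^ s

end Pool.Agent.Helper70.DK
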