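import Pool.Agent.Helper39.DK.IDefs

/-! IFIN: all intermediate dimensions. -/

set_option autoImplicit false

namespace Pool.Agent.Helper70.DK

open Finset MeasureTheory

theorem ifin_vol {m : ℕ} (U : Set (EuclideanSpace ℝ (Fin (m + 1)))) (d ρ' : ℝ) (h0 : 0 < ρ')
    (h1 : ρ' ≤ d) (hd : Metric.ediam U ≤ ENNReal.ofReal d) :
    volume (Metric.thickening ρ' U) ≤ ENNReal.ofReal ((2 * d) ^ (m + 1)) *
      volume (Metric.closedBall (0 : EuclideanSpace ℝ (Fin (m + 1))) 1) := by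
  rcases Set.eq_empty_or_nonempty U with hU | ⟨x, hx⟩
  · rw [hU, Metric.thickening_empty, measure_empty]
    exact bot_le
  · have hsub : Metric.thickening ρ' U ⊆ Metric.closedBall x (2 * d) := by
      intro z hz
      rw [Metric.mem_thickening_iff] at hz
      obtain ⟨y, hy, hzy⟩ := hz
      have h2 : edist y x ≤ ENNReal.ofReal d := (Metric.edist_le_ediam_of_mem hy hx).trans hd
      rw [edist_dist, ENNReal.ofReal_le_ofReal_iff (by linarith)] at h2
      rw [Metric.mem_closedBall]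
      have h3 := dist_triangle z y x
      linarith
    refine (measure_mono hsub).trans ?_
    rw [Measure.addHaar_closedBall' volume x (by linarith)]
    rw [finrank_euclideanSpace, Fintype.card_fin]

theorem ifin_term {m : ℕ} (U : Set (EuclideanSpace ℝ (Fin (m + 1)))) (d ρ' ρk s : ℝ) (h0 : 0 < ρ')
    (h1 : ρ' ≤ d) (hk : d ≤ ρk) (hd : Metric.ediam U = ENNReal.ofReal d) (hs : s < m + 1) :
    volume (Metric.thickening ρ' U) ≤ ENNReal.ofReal (2 ^ (m + 1) * ρk ^ ((m : ℝ) + 1 - s) *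
      (volume (Metric.closedBall (0 : EuclideanSpace ℝ (Fin (m + 1))) 1)).toReal) * Metric.ediam U ^ s := by
  have hd0 : 0 < d := by linarith
  have hk0 : 0 < ρk := by linarith
  refine (ifin_vol U d ρ' h0 h1 hd.le).trans ?_
  have hfin : volume (Metric.closedBall (0 : EuclideanSpace ℝ (Fin (m + 1))) 1) ≠ ⊤ :=
    (isCompact_closedBall _ _).measure_lt_top.ne
  rw [hd, ENNReal.ofReal_rpow_of_pos hd0, ← ENNReal.ofReal_mul (by positivity)]
  rw [← ENNReal.ofReal_toReal hfin, ← ENNReal.ofReal_mul (by positivity), ENNReal.toReal_ofReal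
    ENNReal.toReal_nonneg]
  apply ENNReal.ofReal_le_ofReal
  have e1 : d ^ (m + 1) = d ^ ((m : ℝ) + 1 - s) * d ^ s := by
    rw [← Real.rpow_add hd0, ← Real.rpow_natCast]
    congr 1
    push_cast
    ring
  have e2 : d ^ ((m : ℝ) + 1 - s) ≤ ρk ^ ((m : ℝ) + 1 - s) :=
    Real.rpow_le_rpow hd0.le hk (by linarith)
  have h5 : (0 : ℝ) ≤ (volume (Metric.closedBall (0 : EuclideanSpace ℝ (Fin (m + 1))) 1)).toReal :=
    ENNReal.toReal_nonneg
  have h6 : 0 < d ^ s := by positivity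
  calc (2 * d) ^ (m + 1) * (volume (Metric.closedBall (0 : EuclideanSpace ℝ (Fin (m + 1))) 1)).toReal
      = 2 ^ (m + 1) * (d ^ ((m : ℝ) + 1 - s) * d ^ s) *
        (volume (Metric.closedBall (0 : EuclideanSpace ℝ (Fin (m + 1))) 1)).toReal := by
          rw [mul_pow, e1]
    _ ≤ 2 ^ (m + 1) * (ρk ^ ((m : ℝ) + 1 - s) * d ^ s) *
        (volume (Metric.closedBall (0 : EuclideanSpace ℝ (Fin (m + 1))) 1)).toReal := by gcongr
    _ = _ := by ring

/-- pigeonhole over the classes for the volume of sets of heights -/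
theorem ifin_pig (Q : ℕ) (hQ : 1 ≤ Q) (T : ℕ → Set ℝ) (hT : Set.Icc (0 : ℝ) 1 ⊆ ⋃ k ∈ Finset.range Q, T k) :
    ∃ k, k < Q ∧ ENNReal.ofReal (1 / Q) ≤ volume (T k) := by
  by_contra hcon
  push Not at hcon
  have hQ0 : (0 : ℝ) < Q := by exact_mod_cast hQ
  have h1 : volume (Set.Icc (0 : ℝ) 1) ≤ ∑ k ∈ Finset.range Q, volume (T k) :=
    (measure_mono hT).trans (measure_biUnion_finset_le _ _)
  have h2 : ∑ k ∈ Finset.range Q, volume (T k) < ∑ _k ∈ Finset.range Q, ENNReal.ofReal (1 / Q) :=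
    ENNReal.sum_lt_sum_of_nonempty ⟨0, Finset.mem_range.2 (by omega)⟩
      (fun k hk => hcon k (Finset.mem_range.1 hk))
  have h3 : ∑ _k ∈ Finset.range Q, ENNReal.ofReal (1 / (Q : ℝ)) = 1 := by
    rw [Finset.sum_const, Finset.card_range, nsmul_eq_mul, ← ENNReal.ofReal_natCast,
      ← ENNReal.ofReal_mul (by positivity)]
    rw [mul_one_div_cancel hQ0.ne', ENNReal.ofReal_one]
  rw [h3] at h2
  rw [Real.volume_Icc] at h1
  norm_num at h1
  exact absurd (h1.trans_lt h2) (lt_irrefl _)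

open Classical in
/-- pigeonhole over the classes for the words -/
theorem ifin_words {α : Type} [Fintype α] (Q : ℕ) (P : ℕ → α → Prop) (h : ∀ w, ∃ k, k < Q ∧ P k w) :
    Fintype.card α ≤ ∑ k ∈ Finset.range Q, ((univ : Finset α).filter (fun w => P k w)).card := by
  have h1 : (univ : Finset α) ⊆ (Finset.range Q).biUnion (fun k => (univ : Finset α).filter (fun w => P k w)) := by
    intro w _
    obtain ⟨k, hk, hP⟩ := h w
    rw [mem_biUnion]
    exact ⟨k, Finset.mem_range.2 hk, mem_filter.2 ⟨mem_univ _, hP⟩⟩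
  calc Fintype.card α = (univ : Finset α).card := rfl
    _ ≤ _ := card_le_card h1
    _ ≤ _ := card_biUnion_le

/-- the class of a diameter -/
theorem ifin_class {δ η x d : ℝ} (hδ0 : 0 < δ) (hδ1 : δ < 1) (Q : ℕ) (hQ : x ≤ (1 + η) ^ (Q + 1))
    (hd1 : δ ^ x ≤ d) (hd2 : d ≤ δ) :
    ∃ k, k < Q + 1 ∧ δ ^ ((1 + η) ^ (k + 1)) ≤ d ∧ d ≤ δ ^ ((1 + η) ^ k) := by
  classical
  have hex : ∃ j : ℕ, δ ^ ((1 + η) ^ (j + 1)) ≤ d :=
    ⟨Q, (Real.rpow_le_rpow_of_exponent_ge hδ0 hδ1.le hQ).trans hd1⟩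
  refine ⟨Nat.find hex, ?_, Nat.find_spec hex, ?_⟩
  · have : Nat.find hex ≤ Q :=
      Nat.find_min' hex ((Real.rpow_le_rpow_of_exponent_ge hδ0 hδ1.le hQ).trans hd1)
    omega
  · rcases Nat.eq_zero_or_pos (Nat.find hex) with h0 | h0
    · rw [h0, pow_zero, Real.rpow_one]
      exact hd2
    · have h1 := Nat.find_min hex (m := Nat.find hex - 1) (by omega)
      push Not at h1
      have h2 : Nat.find hex - 1 + 1 = Nat.find hex := by omega
      rw [h2] at h1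
      exact h1.le

/-- the segment case -/
theorem ifin_seg {m : ℕ} (E : Set (EuclideanSpace ℝ (Fin (m + 1)))) (z : ℝ → Fin m → ℝ)
    (hE : ∀ t : ℝ, 0 ≤ t → t ≤ 1 → pt (z t) t ∈ E) (s : ℝ) (hs : s ≤ 1) (ι : Type) [Countable ι]
    (U : ι → Set (EuclideanSpace ℝ (Fin (m + 1)))) (hU : E ⊆ ⋃ i, U i)
    (hd : ∀ i, Metric.ediam (U i) ≤ 1) : 1 ≤ ∑' i, Metric.ediam (U i) ^ s := by
  have h1 : Set.Icc (0 : ℝ) 1 ⊆ ⋃ i, (fun p : EuclideanSpace ℝ (Fin (m + 1)) => p (Fin.last m)) '' (U i) := by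
    intro t ht
    have h2 := hU (hE t ht.1 ht.2)
    rw [Set.mem_iUnion] at h2 ⊢
    obtain ⟨i, hi⟩ := h2
    refine ⟨i, pt (z t) t, hi, ?_⟩
    simp [pt]
  have h3 : volume (Set.Icc (0 : ℝ) 1) ≤ ∑' i, Metric.ediam (U i) := by
    refine (measure_mono h1).trans ((measure_iUnion_le _).trans ?_)
    refine ENNReal.tsum_le_tsum (fun i => ?_)
    refine (Real.volume_le_diam _).trans ?_
    rw [Metric.ediam_image_le_iff]
    intro x hx y hy
    refine le_trans ?_ (Metric.edist_le_ediam_of_mem hx hy)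
    rw [edist_dist, edist_dist]
    apply ENNReal.ofReal_le_ofReal
    rw [Real.dist_eq, EuclideanSpace.dist_eq]
    refine Real.le_sqrt_of_sq_le ?_
    rw [sq_abs]
    have := Finset.single_le_sum (f := fun i => dist (x i) (y i) ^ 2) (fun i _ => sq_nonneg _)
      (Finset.mem_univ (Fin.last m))
    refine le_trans (le_of_eq ?_) this
    simp only [Real.dist_eq, sq_abs]
  rw [Real.volume_Icc] at h3
  norm_num at h3
  refine h3.trans (ENNReal.tsum_le_tsum (fun i => ?_))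
  calc Metric.ediam (U i) = Metric.ediam (U i) ^ (1 : ℝ) := (ENNReal.rpow_one _).symm
    _ ≤ Metric.ediam (U i) ^ s := ENNReal.rpow_le_rpow_of_exponent_ge (hd i) hs

/-- numerical part -/
theorem ifin_num {m : ℕ} {h g s η v c y0 δ δ0 ρ' : ℝ} (k : ℕ) (hh0 : 0 ≤ h) (hg0 : 0 < g)
    (hg : g = m + 1 - h - s) (hη : η = g / (4 * (h + g))) (hv : 0 < v) (hc : 0 < c) (hy0 : 0 < y0)
    (hδ0 : 0 < δ) (hδ1 : δ < 1) (hδ : δ ≤ δ0)
    (hδ0' : δ0 ≤ (c * y0 ^ (h + g / 4) / (2 ^ (m + 1) * v)) ^ (2 / g))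
    (hρ : y0 * δ ^ ((1 + η) ^ (k + 1)) ≤ ρ') :
    2 ^ (m + 1) * (δ ^ ((1 + η) ^ k)) ^ ((m : ℝ) + 1 - s) * v ≤ c * ρ' ^ (h + g / 4) := by
  have hhg : 0 < h + g := by linarith
  have hη0 : 0 < η := by rw [hη]; positivity
  obtain ⟨ρk, hρk⟩ : ∃ ρk : ℝ, ρk = δ ^ ((1 + η) ^ k) := ⟨_, rfl⟩
  have hρk0 : 0 < ρk := by rw [hρk]; positivity
  have hρkδ : ρk ≤ δ := by
    rw [hρk]
    have h1 : (1 : ℝ) ≤ (1 + η) ^ k := one_le_pow₀ (by linarith)
    calc δ ^ ((1 + η) ^ k) ≤ δ ^ (1 : ℝ) := Real.rpow_le_rpow_of_exponent_ge hδ0 hδ1.le h1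
      _ = δ := Real.rpow_one δ
  have hρk1 : ρk ≤ 1 := hρkδ.trans hδ1.le
  have e1 : δ ^ ((1 + η) ^ (k + 1)) = ρk ^ (1 + η) := by
    rw [hρk, ← Real.rpow_mul hδ0.le, pow_succ]
  rw [e1] at hρ
  rw [← hρk]
  obtain ⟨c0, hc0⟩ : ∃ c0 : ℝ, c0 = c * y0 ^ (h + g / 4) / (2 ^ (m + 1) * v) := ⟨_, rfl⟩
  have hc0p : 0 < c0 := by rw [hc0]; positivity
  rw [← hc0] at hδ0'
  have h2 : ρk ^ (g / 2) ≤ c0 := by
    calc ρk ^ (g / 2) ≤ (c0 ^ (2 / g)) ^ (g / 2) :=
          Real.rpow_le_rpow hρk0.le (hρkδ.trans (hδ.trans hδ0')) (by positivity)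
      _ = c0 := by
          rw [← Real.rpow_mul hc0p.le]
          have : 2 / g * (g / 2) = 1 := by field_simp
          rw [this, Real.rpow_one]
  have h3 : (y0 * ρk ^ (1 + η)) ^ (h + g / 4) ≤ ρ' ^ (h + g / 4) :=
    Real.rpow_le_rpow (by positivity) hρ (by linarith)
  have h4 : (y0 * ρk ^ (1 + η)) ^ (h + g / 4) = y0 ^ (h + g / 4) * ρk ^ ((1 + η) * (h + g / 4)) := by
    rw [Real.mul_rpow hy0.le (by positivity), ← Real.rpow_mul hρk0.le]
  have h5 : (1 + η) * (h + g / 4) ≤ h + g / 2 := by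
    have h6 : η * (h + g / 4) ≤ g / 4 := by
      rw [hη, div_mul_eq_mul_div, div_le_iff₀ (by positivity)]
      nlinarith
    linarith
  have h6 : ρk ^ (h + g / 2) ≤ ρk ^ ((1 + η) * (h + g / 4)) :=
    Real.rpow_le_rpow_of_exponent_ge hρk0 hρk1 h5
  have h7 : ρk ^ ((m : ℝ) + 1 - s) = ρk ^ (h + g / 2) * ρk ^ (g / 2) := by
    rw [← Real.rpow_add hρk0]
    congr 1
    rw [hg]
    ring
  rw [h7]
  have h8 : 2 ^ (m + 1) * v * c0 = c * y0 ^ (h + g / 4) := by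
    rw [hc0]
    field_simp
  calc 2 ^ (m + 1) * (ρk ^ (h + g / 2) * ρk ^ (g / 2)) * v
      = 2 ^ (m + 1) * v * ρk ^ (g / 2) * ρk ^ (h + g / 2) := by ring
    _ ≤ 2 ^ (m + 1) * v * c0 * ρk ^ (h + g / 2) := by gcongr
    _ = c * (y0 ^ (h + g / 4) * ρk ^ (h + g / 2)) := by rw [h8]; ring
    _ ≤ c * (y0 ^ (h + g / 4) * ρk ^ ((1 + η) * (h + g / 4))) := by gcongr
    _ ≤ c * ρ' ^ (h + g / 4) := by
        rw [← h4]
        gcongr

theorem st_IFIN (hISC : ST_ISC) : ST_IFIN := by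
  classical
  intro m b L Np R θ s hm hb hL hNp hR hθ hθ1 hs
  obtain ⟨h, hh⟩ : ∃ h : ℝ, h = Real.log Np / (L * Real.log b) := ⟨_, rfl⟩
  rw [← hh] at hs
  have hlb : 0 < Real.log b := Real.log_pos (by exact_mod_cast hb)
  have hh0 : 0 ≤ h := by
    rw [hh]
    exact div_nonneg (Real.log_natCast_nonneg _) (by positivity)
  rcases lt_or_ge h (m : ℝ) with hhm | hhm
  · obtain ⟨g, hg⟩ : ∃ g : ℝ, g = m + 1 - h - s := ⟨_, rfl⟩
    have hg0 : 0 < g := by rw [hg]; linarith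
    obtain ⟨η, hη⟩ : ∃ η : ℝ, η = g / (4 * (h + g)) := ⟨_, rfl⟩
    have hη0 : 0 < η := by rw [hη]; positivity
    obtain ⟨Q, hQ⟩ : ∃ Q : ℕ, 1 / θ < (1 + η) ^ Q := pow_unbounded_of_one_lt _ (by linarith)
    have hQ' : 1 / θ ≤ (1 + η) ^ (Q + 1) := by
      refine hQ.le.trans ?_
      exact pow_le_pow_right₀ (by linarith) (by omega)
    obtain ⟨B, K, N0, c, hB, hK, hc, H⟩ := hISC m b L Np (Q + 1) R (g / 4) hm hb hL hNp (by omega) hR
      (by positivity) (by rw [← hh]; exact hhm)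
    rw [← hh] at H
    have hB0 : (0 : ℝ) < B := by
      have : 0 < B := by omega
      exact_mod_cast this
    have hBi0 : (0 : ℝ) < (B : ℝ)⁻¹ := by positivity
    have hBi1 : (B : ℝ)⁻¹ < 1 := by
      rw [inv_lt_one₀ hB0]
      exact_mod_cast (by omega : 1 < B)
    obtain ⟨v, hv⟩ : ∃ v : ℝ, v = (volume (Metric.closedBall (0 : EuclideanSpace ℝ (Fin (m + 1))) 1)).toReal :=
      ⟨_, rfl⟩
    have hv0 : 0 < v := by
      rw [hv]
      exact ENNReal.toReal_pos (Metric.measure_closedBall_pos volume _ one_pos).ne'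
        (isCompact_closedBall _ _).measure_lt_top.ne
    obtain ⟨δ0, hδ0p, hδ01, hδ0N, hδ0c⟩ : ∃ δ0 : ℝ, 0 < δ0 ∧ δ0 ≤ 1 / 2 ∧ δ0 ≤ (B : ℝ)⁻¹ ^ N0 ∧
        δ0 ≤ (c * ((B : ℝ)⁻¹) ^ (h + g / 4) / (2 ^ (m + 1) * v)) ^ (2 / g) := by
      refine ⟨min (min (1 / 2) ((B : ℝ)⁻¹ ^ N0))
        ((c * ((B : ℝ)⁻¹) ^ (h + g / 4) / (2 ^ (m + 1) * v)) ^ (2 / g)), ?_, ?_, ?_, ?_⟩
      · exact lt_min (lt_min (by norm_num) (by positivity)) (by positivity)
      · exact (min_le_left _ _).trans (min_le_left _ _)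
      · exact (min_le_left _ _).trans (min_le_right _ _)
      · exact min_le_right _ _
    refine ⟨δ0, hδ0p, ?_⟩
    intro a E hst hcp hE δ hδ hδδ0 ι _ U hU hd
    have hδ1 : δ < 1 := by linarith
    obtain ⟨y, hy, Hy⟩ := H a hst hcp
    -- diameters
    have hdt : ∀ i, Metric.ediam (U i) ≠ ⊤ := fun i => ((hd i).2.trans_lt ENNReal.ofReal_lt_top).ne
    obtain ⟨d, hdd⟩ : ∃ d : ι → ℝ, ∀ i, Metric.ediam (U i) = ENNReal.ofReal (d i) ∧ 0 ≤ d i :=
      ⟨fun i => (Metric.ediam (U i)).toReal, fun i => ⟨(ENNReal.ofReal_toReal (hdt i)).symm,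
        ENNReal.toReal_nonneg⟩⟩
    have hd1 : ∀ i, δ ^ (1 / θ) ≤ d i := by
      intro i
      have h1 := (hd i).1
      rw [(hdd i).1, ENNReal.ofReal_le_ofReal_iff (hdd i).2] at h1
      exact h1
    have hd2 : ∀ i, d i ≤ δ := by
      intro i
      have h1 := (hd i).2
      rw [(hdd i).1, ENNReal.ofReal_le_ofReal_iff hδ.le] at h1
      exact h1
    choose cls hcls1 hcls2 hcls3 using fun i => ifin_class (η := η) hδ hδ1 Q hQ' (hd1 i) (hd2 i)
    -- scales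
    have hscale : ∀ k : ℕ, ∃ n : ℕ, N0 ≤ n + 1 ∧ (B : ℝ)⁻¹ ^ (n + 1) < δ ^ ((1 + η) ^ (k + 1)) ∧
        (B : ℝ)⁻¹ * δ ^ ((1 + η) ^ (k + 1)) ≤ (B : ℝ)⁻¹ ^ (n + 1) := by
      intro k
      have hx0 : 0 < δ ^ ((1 + η) ^ (k + 1)) := by positivity
      have hxδ : δ ^ ((1 + η) ^ (k + 1)) ≤ δ := by
        have h1 : (1 : ℝ) ≤ (1 + η) ^ (k + 1) := one_le_pow₀ (by linarith)
        calc δ ^ ((1 + η) ^ (k + 1)) ≤ δ ^ (1 : ℝ) := Real.rpow_le_rpow_of_exponent_ge hδ hδ1.le h1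
          _ = δ := Real.rpow_one δ
      obtain ⟨n, hn1, hn2⟩ := exists_nat_pow_near_of_lt_one hx0 (hxδ.trans hδ1.le) hBi0 hBi1
      refine ⟨n, ?_, hn1, ?_⟩
      · by_contra hcon
        push Not at hcon
        have h1 : (B : ℝ)⁻¹ ^ N0 ≤ (B : ℝ)⁻¹ ^ (n + 1) :=
          pow_le_pow_of_le_one hBi0.le hBi1.le hcon.le
        linarith
      · rw [pow_succ, mul_comm]
        exact mul_le_mul_of_nonneg_right hn2 hBi0.le
    choose nn hnn1 hnn2 hnn3 using hscale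
    -- the classes
    obtain ⟨A, hA⟩ : ∃ A : ℕ → Set (EuclideanSpace ℝ (Fin (m + 1))), A = fun k => {p | ∃ i, cls i = k ∧ p ∈ U i} :=
      ⟨_, rfl⟩
    have main : ∀ (M : ℕ) (k : ℕ), k < Q + 1 → nn k + 1 ≤ M → ENNReal.ofReal (1 / ((Q + 1 : ℕ) : ℝ)) ≤
        volume {t : ℝ | t ∈ Set.Icc (0 : ℝ) 1 ∧ (K : ℝ) ^ M ≤ ((Q + 1 : ℕ) : ℝ) *
          (((univ : Finset (Fin M → Fin K)).filter (fun w => pt (y M w t) t ∈ A k)).card : ℝ)} →
        1 ≤ ∑' i, Metric.ediam (U i) ^ s := by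
      intro M k hk hle hvol
      obtain ⟨r, rfl⟩ := Nat.exists_eq_add_of_le hle
      have h1 := Hy (nn k + 1) (hnn1 k) r (A k) _ (fun t ht => ht.1) hvol (fun t ht => ht.2)
      obtain ⟨ρ', hρ'⟩ : ∃ ρ' : ℝ, ρ' = (B : ℝ)⁻¹ ^ (nn k + 1) := ⟨_, rfl⟩
      rw [← hρ'] at h1
      have hρ'0 : 0 < ρ' := by rw [hρ']; positivity
      have hρ'1 : ρ' ≤ δ ^ ((1 + η) ^ (k + 1)) := by rw [hρ']; exact (hnn2 k).le
      have hρ'2 : (B : ℝ)⁻¹ * δ ^ ((1 + η) ^ (k + 1)) ≤ ρ' := by rw [hρ']; exact hnn3 k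
      obtain ⟨κ, hκ⟩ : ∃ κ : ℝ, κ = 2 ^ (m + 1) * (δ ^ ((1 + η) ^ k)) ^ ((m : ℝ) + 1 - s) * v := ⟨_, rfl⟩
      have hκ0 : 0 < κ := by rw [hκ]; positivity
      have hnum := ifin_num (m := m) (δ0 := δ0) k hh0 hg0 hg hη hv0 hc hBi0 hδ hδ1 hδδ0 hδ0c hρ'2
      rw [← hκ] at hnum
      have h2 : volume (Metric.thickening ρ' (A k)) ≤ ENNReal.ofReal κ * ∑' i, Metric.ediam (U i) ^ s := by
        have hsub : Metric.thickening ρ' (A k) ⊆ ⋃ i, (if cls i = k then Metric.thickening ρ' (U i) else ∅) := by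
          intro z hz
          rw [Metric.mem_thickening_iff] at hz
          obtain ⟨p, hp, hzp⟩ := hz
          rw [hA] at hp
          obtain ⟨i, hi, hpi⟩ := hp
          rw [Set.mem_iUnion]
          refine ⟨i, ?_⟩
          rw [if_pos hi, Metric.mem_thickening_iff]
          exact ⟨p, hpi, hzp⟩
        refine (measure_mono hsub).trans ((measure_iUnion_le _).trans ?_)
        rw [← ENNReal.tsum_mul_left]
        refine ENNReal.tsum_le_tsum (fun i => ?_)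
        by_cases hi : cls i = k
        · rw [if_pos hi, hκ, hv]
          refine ifin_term (U i) (d i) ρ' (δ ^ ((1 + η) ^ k)) s hρ'0 ?_ ?_ (hdd i).1 (by linarith)
          · rw [← hi] at hρ'1
            exact hρ'1.trans (hcls2 i)
          · rw [← hi]
            exact hcls3 i
        · rw [if_neg hi, measure_empty]
          exact bot_le
      have h3 : ENNReal.ofReal κ ≤ ENNReal.ofReal κ * ∑' i, Metric.ediam (U i) ^ s :=
        (ENNReal.ofReal_le_ofReal hnum).trans (h1.trans h2)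
      by_contra hcon
      push Not at hcon
      have h4 : ENNReal.ofReal κ * ∑' i, Metric.ediam (U i) ^ s < ENNReal.ofReal κ * 1 := by
        refine (ENNReal.mul_lt_mul_iff_right ?_ ENNReal.ofReal_ne_top).2 hcon
        rw [Ne, ENNReal.ofReal_eq_zero, not_le]
        exact hκ0
      rw [mul_one] at h4
      exact absurd (h3.trans_lt h4) (lt_irrefl _)
    -- pigeonhole
    obtain ⟨M, hM⟩ : ∃ M : ℕ, M = ∑ k ∈ Finset.range (Q + 1), (nn k + 1) := ⟨_, rfl⟩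
    obtain ⟨k, hk, hvol⟩ := ifin_pig (Q + 1) (by omega)
      (fun k => {t : ℝ | t ∈ Set.Icc (0 : ℝ) 1 ∧ (K : ℝ) ^ M ≤ ((Q + 1 : ℕ) : ℝ) *
          (((univ : Finset (Fin M → Fin K)).filter (fun w => pt (y M w t) t ∈ A k)).card : ℝ)}) (by
        intro t ht
        have h1 := ifin_words (α := Fin M → Fin K) (Q + 1) (fun k w => pt (y M w t) t ∈ A k) (by
          intro w
          obtain ⟨x, hx, hxy⟩ := hy M w
          have h2 : pt (y M w t) t ∈ E := by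
            have : y M w t = fun c => a x c + t * x c := funext (fun c => hxy t c)
            rw [this]
            exact hE x hx t ht.1 ht.2
          obtain ⟨i, hi⟩ := Set.mem_iUnion.1 (hU h2)
          exact ⟨cls i, hcls1 i, by rw [hA]; exact ⟨i, rfl, hi⟩⟩)
        rw [Fintype.card_fun, Fintype.card_fin, Fintype.card_fin] at h1
        by_contra hcon
        simp only [Set.mem_iUnion, Finset.mem_range, not_exists] at hcon
        have h2 : ∀ k ∈ Finset.range (Q + 1), ((Q + 1 : ℕ) : ℝ) *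
            (((univ : Finset (Fin M → Fin K)).filter (fun w => pt (y M w t) t ∈ A k)).card : ℝ) < (K : ℝ) ^ M := by
          intro k hk
          have h3 := hcon k (Finset.mem_range.1 hk)
          by_contra h4
          push Not at h4
          exact h3 ⟨ht, h4⟩
        have h3 := Finset.sum_lt_sum_of_nonempty ⟨0, Finset.mem_range.2 (by omega)⟩ h2
        rw [← Finset.mul_sum, Finset.sum_const, Finset.card_range, nsmul_eq_mul] at h3
        have h4 : ((K ^ M : ℕ) : ℝ) ≤ ∑ k ∈ Finset.range (Q + 1),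
            (((univ : Finset (Fin M → Fin K)).filter (fun w => pt (y M w t) t ∈ A k)).card : ℝ) := by
          exact_mod_cast h1
        push_cast at h4
        have h5 : ((Q + 1 : ℕ) : ℝ) * (K : ℝ) ^ M ≤ ((Q + 1 : ℕ) : ℝ) * ∑ k ∈ Finset.range (Q + 1),
            (((univ : Finset (Fin M → Fin K)).filter (fun w => pt (y M w t) t ∈ A k)).card : ℝ) := by gcongr
        linarith)
    refine main M k hk ?_ hvol
    rw [hM]
    exact Finset.single_le_sum (f := fun k => nn k + 1) (fun _ _ => Nat.zero_le _) (Finset.mem_range.2 hk)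
  · refine ⟨1, one_pos, ?_⟩
    intro a E hst hcp hE δ hδ hδδ0 ι _ U hU hd
    have h0 : (0 : Fin m → ℝ) ∈ cube m := fun c => ⟨le_rfl, zero_lt_one⟩
    refine ifin_seg E (fun t c => a 0 c + t * (0 : Fin m → ℝ) c) (fun t ht0 ht1 => hE 0 h0 t ht0 ht1) s
      (by linarith) ι U hU ?_
    intro i
    refine (hd i).2.trans ?_
    rw [ENNReal.ofReal_le_one]
    exact hδδ0

end Pool.Agent.Helper70.DK
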