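import Pool.Agent.Helper39.DK.IDefs

/-! ISC: one scale. -/

set_option autoImplicit false

namespace Pool.Agent.Helper70.DK

open Finset MeasureTheory

/-- choice of the block length and of the number of letters -/
theorem isc_K (m N L b : ℕ) (h ε0 x : ℝ) (hb : 2 ≤ b) (hL : 1 ≤ L) (hN : 1 ≤ N)
    (hh : h = Real.log N / (L * Real.log b)) (hε : 0 < ε0) (hε2 : ε0 ≤ m - h) :
    ∃ p K : ℕ, 1 ≤ p ∧ 1 ≤ K ∧ K * N ^ p ≤ (b ^ (p * L) - 1) ^ m ∧
      x ≤ Real.log ((b ^ (p * L) : ℕ) : ℝ) ∧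
      (m - (h + ε0)) * Real.log ((b ^ (p * L) : ℕ) : ℝ) ≤ Real.log K ∧
      Real.log K ≤ (m - (h + ε0)) * Real.log ((b ^ (p * L) : ℕ) : ℝ) + Real.log 2 := by
  have hb1 : (1 : ℝ) < (b : ℝ) ^ L := by
    have h1 : (1 : ℝ) < b := by exact_mod_cast hb
    exact one_lt_pow₀ h1 (by omega)
  have t1 : Filter.Tendsto (fun p : ℕ => (((b : ℝ) ^ L) ^ p)) Filter.atTop Filter.atTop :=
    tendsto_pow_atTop_atTop_of_one_lt hb1
  have t2 := (tendsto_rpow_atTop hε).comp t1
  obtain ⟨p, hL1, hL2, hL4, hL3⟩ :=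
    ((t1.eventually (Filter.eventually_ge_atTop (2 : ℝ))).and
      ((t2.eventually (Filter.eventually_ge_atTop (2 ^ (m + 1) : ℝ))).and
        ((t1.eventually (Filter.eventually_ge_atTop (Real.exp x))).and
        (Filter.eventually_ge_atTop 1)))).exists
  have hcomp : ((b : ℝ) ^ L) ^ p = (b : ℝ) ^ (p * L) := by rw [← pow_mul, mul_comm]
  simp only [Function.comp] at hL2
  rw [hcomp] at hL1 hL2 hL4
  set B : ℕ := b ^ (p * L) with hB
  have hBr : (B : ℝ) = (b : ℝ) ^ (p * L) := by rw [hB]; push_cast; ring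
  rw [← hBr] at hL1 hL2 hL4
  have h2 : 2 ≤ B := by exact_mod_cast hL1
  have hB0 : (0 : ℝ) < B := by linarith
  have hlb : 0 < Real.log b := Real.log_pos (by exact_mod_cast hb)
  have hL0 : (0 : ℝ) < L := by exact_mod_cast hL
  have hN0 : (0 : ℝ) < N := by exact_mod_cast hN
  -- `N ^ p = B ^ h`
  have hNB : ((N : ℝ)) ^ p = (B : ℝ) ^ h := by
    rw [hBr, ← Real.rpow_natCast (b : ℝ) (p * L), ← Real.rpow_mul (by positivity), hh,
      ← Real.rpow_natCast (N : ℝ) p, Real.rpow_def_of_pos hN0, Real.rpow_def_of_pos (by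
        have : 0 < b := by omega
        exact_mod_cast this)]
    congr 1
    push_cast
    field_simp
  have h4 : B ^ m ≤ 2 ^ m * (B - 1) ^ m := by
    rw [← mul_pow]
    exact Nat.pow_le_pow_left (by omega) m
  have h4r : (B : ℝ) ^ m ≤ 2 ^ m * (((B - 1) ^ m : ℕ) : ℝ) := by exact_mod_cast h4
  have hNpos : 0 < N ^ p := Nat.pow_pos (by omega)
  set Y : ℝ := (B : ℝ) ^ ((m : ℝ) - (h + ε0)) with hY
  have hY1 : 1 ≤ Y := Real.one_le_rpow (by linarith) (by linarith)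
  -- `2 ^ (m + 1) Y N ^ p ≤ B ^ m`
  have h5 : 2 ^ m * (2 * Y * (N : ℝ) ^ p) ≤ (B : ℝ) ^ m := by
    rw [hNB]
    calc (2 : ℝ) ^ m * (2 * Y * (B : ℝ) ^ h) = (2 : ℝ) ^ (m + 1) * (B : ℝ) ^ ((m : ℝ) - (h + ε0) + h) := by
          rw [Real.rpow_add hB0, hY, pow_succ]
          ring
      _ ≤ (B : ℝ) ^ ε0 * (B : ℝ) ^ ((m : ℝ) - (h + ε0) + h) := by gcongr
      _ = (B : ℝ) ^ m := by
        rw [← Real.rpow_add hB0, ← Real.rpow_natCast]
        congr 1
        ring
  have h6 : 2 * Y * (N : ℝ) ^ p ≤ (((B - 1) ^ m : ℕ) : ℝ) :=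
    le_of_mul_le_mul_left (h5.trans h4r) (by positivity)
  have hc1 : Y ≤ (⌈Y⌉₊ : ℝ) := Nat.le_ceil Y
  have hc2 : (⌈Y⌉₊ : ℝ) < Y + 1 := Nat.ceil_lt_add_one (by linarith)
  refine ⟨p, ⌈Y⌉₊, hL3, ?_, ?_, ?_, ?_, ?_⟩
  · exact Nat.one_le_ceil_iff.2 (by linarith)
  · have h7 : (⌈Y⌉₊ : ℝ) * (N : ℝ) ^ p ≤ (((B - 1) ^ m : ℕ) : ℝ) := by
      refine le_trans ?_ h6
      have : (0 : ℝ) ≤ (N : ℝ) ^ p := by positivity
      nlinarith
    exact_mod_cast h7
  · rwa [Real.le_log_iff_exp_le hB0]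
  · rw [← Real.log_rpow hB0, ← hY]
    exact Real.log_le_log (by linarith) hc1
  · rw [← Real.log_rpow hB0, ← hY, ← Real.log_mul (by linarith) (by norm_num)]
    exact Real.log_le_log (by linarith) (by linarith)

open Classical in
/-- the words of length `N + r` in `W` and their prefixes of length `N` -/
theorem isc_prefix {K N r : ℕ} (W : Finset (Fin (N + r) → Fin K)) :
    W.card ≤ ((univ : Finset (Fin N → Fin K)).filter (fun u => ∃ v : Fin r → Fin K,
      Fin.append u v ∈ W)).card * K ^ r := by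
  have h1 : K ^ r = (univ : Finset (Fin r → Fin K)).card := by
    rw [card_univ, Fintype.card_fun, Fintype.card_fin, Fintype.card_fin]
  rw [h1, ← card_product]
  refine card_le_card_of_injOn (fun w => ((fun i => w (Fin.castAdd r i)), (fun i => w (Fin.natAdd N i))))
    ?_ ?_
  · intro w hw
    rw [mem_coe, mem_product]
    refine ⟨?_, mem_univ _⟩
    rw [mem_filter]
    refine ⟨mem_univ _, fun i => w (Fin.natAdd N i), ?_⟩
    rw [Fin.append_castAdd_natAdd]
    exact hw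
  · intro w _ w' _ h
    rw [Prod.mk.injEq] at h
    rw [← Fin.append_castAdd_natAdd (f := w), ← Fin.append_castAdd_natAdd (f := w'), h.1, h.2]

open Classical in
theorem isc_slice (hPB : ST_PB) (hENT : ST_ENTSUB) {m B K : ℕ} {R t M0 e1 : ℝ} (Q N r : ℕ)
    (σ : Sys m (Fin K)) (a0 : Fin m → ℝ) (A : Set (EuclideanSpace ℝ (Fin (m + 1)))) (hB : 2 ≤ B)
    (hR : 0 ≤ R) (ht0 : 0 ≤ t) (ht1 : t ≤ 1) (hok : σ.Ok B R) (hQ : 1 ≤ Q) (hK : 1 ≤ K)
    (D : ℕ) (hD : R + B + 1 ≤ D) (hlog2 : Real.log 2 ≤ e1 * Real.log B)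
    (hKlog : Real.log K ≤ M0 * Real.log B + Real.log 2)
    (hent : (M0 - e1) * N * Real.log B ≤
      ent (univ : Finset (Fin N → Fin K)) (fun u => fl (σ.P B t 0 N u)))
    (hcov : (K : ℝ) ^ (N + r) ≤ Q * (((univ : Finset (Fin (N + r) → Fin K)).filter (fun w =>
      pt (fun c => a0 c + σ.P B t 0 (N + r) w c / (B : ℝ) ^ (N + r)) t ∈ A)).card : ℝ)) :
    ∃ F : Finset (Fin m → ℝ), (∀ y ∈ F, pt y t ∈ A) ∧
      (∀ y ∈ F, ∀ y' ∈ F, fl (fun c => (y c - a0 c) / ((B : ℝ)⁻¹ ^ N)) =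
        fl (fun c => (y' c - a0 c) / ((B : ℝ)⁻¹ ^ N)) → y = y') ∧
      Real.exp ((M0 - 2 * Q * e1) * N * Real.log B) / (2 ^ Q * (2 * D + 1) ^ m) ≤ F.card := by
  have hB0 : (0 : ℝ) < B := by
    have : 0 < B := by omega
    exact_mod_cast this
  have hL : 0 < Real.log B := Real.log_pos (by exact_mod_cast hB)
  have hK0 : (0 : ℝ) < K := by exact_mod_cast hK
  have hQ0 : (0 : ℝ) < Q := by exact_mod_cast hQ
  have hKne : Nonempty (Fin K) := ⟨⟨0, hK⟩⟩
  obtain ⟨pb1, pb2, -⟩ := hPB m B R t (Fin K) σ hB hR ht0 ht1 hok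
  set W := (univ : Finset (Fin (N + r) → Fin K)).filter (fun w =>
      pt (fun c => a0 c + σ.P B t 0 (N + r) w c / (B : ℝ) ^ (N + r)) t ∈ A) with hW
  set S' := (univ : Finset (Fin N → Fin K)).filter (fun u => ∃ v : Fin r → Fin K,
      Fin.append u v ∈ W) with hS'
  have hpre : W.card ≤ S'.card * K ^ r := isc_prefix W
  have hS1 : (K : ℝ) ^ N ≤ Q * S'.card := by
    have h1 : (W.card : ℝ) ≤ S'.card * (K : ℝ) ^ r := by exact_mod_cast hpre
    have h2 : (K : ℝ) ^ N * (K : ℝ) ^ r ≤ Q * S'.card * (K : ℝ) ^ r := by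
      rw [← pow_add]
      calc (K : ℝ) ^ (N + r) ≤ Q * W.card := hcov
        _ ≤ Q * (S'.card * (K : ℝ) ^ r) := by gcongr
        _ = Q * S'.card * (K : ℝ) ^ r := by ring
    exact le_of_mul_le_mul_right h2 (by positivity)
  have hcard : ((univ : Finset (Fin N → Fin K)).card : ℝ) = (K : ℝ) ^ N := by
    rw [card_univ, Fintype.card_fun, Fintype.card_fin, Fintype.card_fin]
    push_cast
    rfl
  have hS'ne : S'.Nonempty := by
    rw [← card_pos]
    have h1 : (0 : ℝ) < Q * S'.card := lt_of_lt_of_le (by positivity) hS1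
    have h2 : (0 : ℝ) < S'.card := by
      by_contra hcon
      push Not at hcon
      nlinarith
    exact_mod_cast h2
  -- extensions
  have hvv : ∀ u : Fin N → Fin K, ∃ v : Fin r → Fin K, u ∈ S' → Fin.append u v ∈ W := by
    intro u
    by_cases hu : u ∈ S'
    · rw [hS', mem_filter] at hu
      obtain ⟨v, hv⟩ := hu.2
      exact ⟨v, fun _ => hv⟩
    · exact ⟨fun _ => Classical.arbitrary _, fun h => absurd h hu⟩
  choose vv hvv using hvv
  let y : (Fin N → Fin K) → Fin m → ℝ := fun u c =>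
    a0 c + σ.P B t 0 (N + r) (Fin.append u (vv u)) c / (B : ℝ) ^ (N + r)
  let g : (Fin N → Fin K) → Fin m → ℤ := fun u => fl (fun c => (y u c - a0 c) / ((B : ℝ)⁻¹ ^ N))
  let f : (Fin N → Fin K) → Fin m → ℤ := fun u => fl (σ.P B t 0 N u)
  have hyA : ∀ u ∈ S', pt (y u) t ∈ A := by
    intro u hu
    have h1 := hvv u hu
    rw [hW, mem_filter] at h1
    exact h1.2
  have hfg : ∀ u c, f u c ∈ Finset.Icc (g u c - (D : ℤ)) (g u c + D) := by
    intro u c
    have e1 : (y u c - a0 c) / ((B : ℝ)⁻¹ ^ N) = σ.P B t 0 N u c +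
        σ.P B t (0 + N) r (vv u) c / (B : ℝ) ^ r := by
      simp only [y]
      rw [pb1 0 N r u (vv u) c, inv_pow, pow_add]
      have h1 : (B : ℝ) ^ N ≠ 0 := by positivity
      have h2 : (B : ℝ) ^ r ≠ 0 := by positivity
      field_simp
      ring
    have e2 : |σ.P B t (0 + N) r (vv u) c / (B : ℝ) ^ r| ≤ R + B := by
      rw [abs_div, abs_of_pos (by positivity : (0 : ℝ) < (B : ℝ) ^ r), div_le_iff₀ (by positivity)]
      exact pb2 _ _ _ _
    rw [abs_le] at e2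
    simp only [f, g, fl, Finset.mem_Icc]
    rw [e1]
    have f1 := Int.floor_le (σ.P B t 0 N u c)
    have f2 := Int.lt_floor_add_one (σ.P B t 0 N u c)
    have f3 := Int.floor_le (σ.P B t 0 N u c + σ.P B t (0 + N) r (vv u) c / (B : ℝ) ^ r)
    have f4 := Int.lt_floor_add_one (σ.P B t 0 N u c + σ.P B t (0 + N) r (vv u) c / (B : ℝ) ^ r)
    constructor
    · have : ((⌊σ.P B t 0 N u c + σ.P B t (0 + N) r (vv u) c / (B : ℝ) ^ r⌋ : ℤ) : ℝ) - (D : ℝ) <
          (⌊σ.P B t 0 N u c⌋ : ℝ) + 1 := by linarith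
      have h2 : (⌊σ.P B t 0 N u c + σ.P B t (0 + N) r (vv u) c / (B : ℝ) ^ r⌋ : ℤ) - (D : ℤ) <
          ⌊σ.P B t 0 N u c⌋ + 1 := by exact_mod_cast this
      omega
    · have : (⌊σ.P B t 0 N u c⌋ : ℝ) <
          ((⌊σ.P B t 0 N u c + σ.P B t (0 + N) r (vv u) c / (B : ℝ) ^ r⌋ : ℤ) : ℝ) + (D : ℝ) + 1 := by
        linarith
      have h2 : ⌊σ.P B t 0 N u c⌋ <
          (⌊σ.P B t 0 N u c + σ.P B t (0 + N) r (vv u) c / (B : ℝ) ^ r⌋ : ℤ) + (D : ℤ) + 1 := by
        exact_mod_cast this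
      omega
  set Z := S'.image g with hZ
  -- the number of values of `f`
  have hcf : (S'.image f).card ≤ Z.card * (2 * D + 1) ^ m := by
    have h1 : S'.image f ⊆ Z.biUnion (fun z => Fintype.piFinset (fun c : Fin m =>
        Finset.Icc (z c - (D : ℤ)) (z c + D))) := by
      intro z hz
      obtain ⟨u, hu, rfl⟩ := mem_image.1 hz
      rw [mem_biUnion]
      exact ⟨g u, mem_image_of_mem _ hu, Fintype.mem_piFinset.2 (hfg u)⟩
    refine (card_le_card h1).trans ?_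
    refine card_biUnion_le_card_mul _ _ _ ?_
    intro z _
    rw [Fintype.card_piFinset]
    have h2 : ∀ c : Fin m, (Finset.Icc (z c - (D : ℤ)) (z c + D)).card = 2 * D + 1 := by
      intro c
      rw [Int.card_Icc]
      omega
    simp [h2]
  have hlamS : 1 / (Q : ℝ) * ((univ : Finset (Fin N → Fin K)).card : ℝ) ≤ S'.card := by
    rw [hcard, one_div, inv_mul_le_iff₀ hQ0]
    exact hS1
  have hent2 := hENT (Fin N → Fin K) (Fin m → ℤ) univ S' f (S'.image f) (1 / Q) (subset_univ _) hS'ne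
    (fun u hu => mem_image_of_mem _ hu) (by positivity) hlamS
    (card_image_le.trans (card_le_card (subset_univ _)))
  rw [hcard, Real.log_pow] at hent2
  have hI0 : (0 : ℝ) < (S'.image f).card := by
    have : 0 < (S'.image f).card := card_pos.2 (hS'ne.image f)
    exact_mod_cast this
  have hQ1 : (1 : ℝ) ≤ Q := by exact_mod_cast hQ
  have he1 : 0 ≤ e1 * Real.log B := le_trans (Real.log_nonneg (by norm_num)) hlog2
  have hlogI : (M0 - 2 * Q * e1) * N * Real.log B - Q * Real.log 2 ≤ Real.log (S'.image f).card := by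
    have hNn : (0 : ℝ) ≤ N := Nat.cast_nonneg N
    have a1 : (N : ℝ) * Real.log K ≤ N * ((M0 + e1) * Real.log B) := by
      refine mul_le_mul_of_nonneg_left ?_ hNn
      linarith
    have a2 : 0 ≤ 1 - 1 / (Q : ℝ) := by
      rw [sub_nonneg, div_le_one hQ0]
      exact hQ1
    have a3 := mul_le_mul_of_nonneg_left a1 a2
    have a4 : (M0 - e1) * N * Real.log B ≤ Real.log 2 + 1 / Q * Real.log (S'.image f).card +
        (1 - 1 / Q) * (N * ((M0 + e1) * Real.log B)) := by linarith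
    have a5 := mul_le_mul_of_nonneg_left a4 hQ0.le
    have a6 : (Q : ℝ) * (Real.log 2 + 1 / Q * Real.log (S'.image f).card +
        (1 - 1 / Q) * (N * ((M0 + e1) * Real.log B))) = Q * Real.log 2 + Real.log (S'.image f).card +
        (Q - 1) * (N * ((M0 + e1) * Real.log B)) := by
      field_simp
    rw [a6] at a5
    have a7 : 0 ≤ (N : ℝ) * (e1 * Real.log B) := by positivity
    nlinarith
  have hXI : Real.exp ((M0 - 2 * Q * e1) * N * Real.log B) / 2 ^ Q ≤ (S'.image f).card := by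
    rw [div_le_iff₀ (by positivity)]
    have h1 := Real.exp_le_exp.2 hlogI
    rw [Real.exp_log hI0, Real.exp_sub, Real.exp_nat_mul, Real.exp_log (by norm_num),
      div_le_iff₀ (by positivity)] at h1
    exact h1
  -- one point for every cell
  have hsec : ∀ z : Fin m → ℤ, ∃ u : Fin N → Fin K, z ∈ Z → u ∈ S' ∧ g u = z := by
    intro z
    by_cases hz : z ∈ Z
    · obtain ⟨u, hu, hu2⟩ := Finset.mem_image.1 hz
      exact ⟨u, fun _ => ⟨hu, hu2⟩⟩
    · exact ⟨fun _ => Classical.arbitrary _, fun h => absurd h hz⟩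
  choose sec hsec using hsec
  refine ⟨Z.image (fun z => y (sec z)), ?_, ?_, ?_⟩
  · intro y' hy'
    obtain ⟨z, hz, rfl⟩ := Finset.mem_image.1 hy'
    exact hyA _ (hsec z hz).1
  · intro y1 h1 y2 h2 heq
    obtain ⟨z1, hz1, rfl⟩ := Finset.mem_image.1 h1
    obtain ⟨z2, hz2, rfl⟩ := Finset.mem_image.1 h2
    have h3 : g (sec z1) = g (sec z2) := heq
    rw [(hsec z1 hz1).2, (hsec z2 hz2).2] at h3
    rw [h3]
  · have hinj : Set.InjOn (fun z => y (sec z)) (Z : Set (Fin m → ℤ)) := by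
      intro z1 hz1 z2 hz2 heq
      have h1 : y (sec z1) = y (sec z2) := heq
      have h3 : g (sec z1) = g (sec z2) := by
        simp only [g]
        rw [h1]
      rw [(hsec z1 hz1).2, (hsec z2 hz2).2] at h3
      exact h3
    rw [Finset.card_image_of_injOn hinj]
    have h1 : ((S'.image f).card : ℝ) ≤ Z.card * (2 * D + 1) ^ m := by exact_mod_cast hcf
    rw [← div_div, div_le_iff₀ (by positivity)]
    exact hXI.trans h1

theorem st_ISC (hAUT : ST_AUTC) (hPOW : ST_CPOW) (hVOL : ST_VOLB) (hPB : ST_PB) (hENT : ST_ENTSUB)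
    (hCOREM : ST_COREMB) : ST_ISC := by
  classical
  intro m b Lp Np Q R e hm hb hLp hNp hQ hR he hhm
  obtain ⟨h, hh⟩ : ∃ h : ℝ, h = Real.log Np / (Lp * Real.log b) := ⟨_, rfl⟩
  rw [← hh] at hhm ⊢
  have hlb : 0 < Real.log b := Real.log_pos (by exact_mod_cast hb)
  have hh0 : 0 ≤ h := by
    rw [hh]
    exact div_nonneg (Real.log_natCast_nonneg _) (by positivity)
  have hQ0 : (0 : ℝ) < Q := by exact_mod_cast hQ
  obtain ⟨e0, he0, he01, he02⟩ : ∃ e0 : ℝ, 0 < e0 ∧ e0 ≤ e / 4 ∧ e0 ≤ m - h :=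
    ⟨min (e / 4) (m - h), lt_min (by positivity) (by linarith), min_le_left _ _, min_le_right _ _⟩
  obtain ⟨e1, he1⟩ : ∃ e1 : ℝ, e1 = e / (8 * Q) := ⟨_, rfl⟩
  have he1p : 0 < e1 := by rw [he1]; positivity
  obtain ⟨p, K, hp1, hK1, hKN, hx, hK2, hK3⟩ := isc_K m Np Lp b h e0 (Real.log 2 / e1) hb hLp hNp hh
    he0 he02
  set L : ℕ := p * Lp with hLdef
  have hL1 : 1 ≤ L := Nat.mul_pos hp1 hLp
  set B : ℕ := b ^ L with hB
  have hB2 : 2 ≤ B := by
    calc 2 ≤ b := hb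
      _ = b ^ 1 := (pow_one b).symm
      _ ≤ b ^ L := Nat.pow_le_pow_right (by omega) hL1
  have hB0 : (0 : ℝ) < B := by
    have : 0 < B := by omega
    exact_mod_cast this
  have hBr : (B : ℝ) = (b : ℝ) ^ L := by rw [hB]; push_cast; ring
  have hR' : 0 ≤ (b : ℝ) ^ L * R := by positivity
  have hlog2 : Real.log 2 ≤ e1 * Real.log B := by
    rw [div_le_iff₀ he1p] at hx
    linarith
  obtain ⟨N0, hN0⟩ := hCOREM m B ((b : ℝ) ^ L * R) (h + e0) e1 (1 / (2 * Q)) hm hB2 hR' (by positivity)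
    he1p (by positivity)
  obtain ⟨cv, hcv, hvol⟩ := hVOL m
  set D : ℕ := ⌈(b : ℝ) ^ L * R + B + 1⌉₊ with hD
  refine ⟨B, K, N0, cv * (1 / (2 * Q)) / (2 ^ Q * (2 * D + 1) ^ m), hB2, hK1, by positivity, ?_⟩
  intro a hst hcp
  obtain ⟨σ, hok, hseg, -, -⟩ := hAUT m b (Np ^ p) L K R a hm hb hL1 hR hK1 hKN hst
    (hPOW m b Lp Np p a hm hb hcp)
  have hKne : Nonempty (Fin K) := ⟨⟨0, hK1⟩⟩
  refine ⟨fun n w t c => a 0 c + σ.P B t 0 n w c / (B : ℝ) ^ n, ?_, ?_⟩
  · intro n w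
    obtain ⟨x, hx, hxe⟩ := hseg n w
    exact ⟨x, hx, fun t c => by rw [hxe t c, hBr]⟩
  · intro N hN r A T hT hTv hcov
    have hbad := hN0 N hN (Fin K) σ hok (by rw [Fintype.card_fin]; exact hK2)
    set bad : Set ℝ := {t : ℝ | 0 ≤ t ∧ t ≤ 1 ∧
      ent (univ : Finset (Fin N → Fin K)) (fun u => fl (σ.P B t 0 N u)) <
        (m - (h + e0) - e1) * N * Real.log B} with hbaddef
    have hTv2 : ENNReal.ofReal (1 / (2 * Q)) ≤ volume (T \ bad) := by
      have h1 : T ⊆ (T \ bad) ∪ bad := by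
        intro t ht
        by_cases h' : t ∈ bad
        · exact Or.inr h'
        · exact Or.inl ⟨ht, h'⟩
      have h2 : ENNReal.ofReal (1 / Q) ≤ volume (T \ bad) + ENNReal.ofReal (1 / (2 * Q)) :=
        hTv.trans ((measure_mono h1).trans ((measure_union_le _ _).trans (add_le_add_right hbad _)))
      have h3 : ENNReal.ofReal (1 / Q) = ENNReal.ofReal (1 / (2 * Q)) + ENNReal.ofReal (1 / (2 * Q)) := by
        rw [← ENNReal.ofReal_add (by positivity) (by positivity)]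
        congr 1
        field_simp
        norm_num
      rw [h3] at h2
      exact (ENNReal.add_le_add_iff_right ENNReal.ofReal_ne_top).1 h2
    set ρ : ℝ := (B : ℝ)⁻¹ ^ N with hρ
    have hρ0 : 0 < ρ := by positivity
    have hρ1 : ρ ≤ 1 := by
      refine pow_le_one₀ (by positivity) ?_
      rw [inv_le_one₀ hB0]
      exact_mod_cast (by omega : 1 ≤ B)
    have hρB : ρ = ((B : ℝ) ^ N)⁻¹ := by rw [hρ, inv_pow]
    obtain ⟨X, hX⟩ : ∃ X : ℝ, X = Real.exp ((m - (h + e0) - 2 * Q * e1) * N * Real.log B) /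
      (2 ^ Q * (2 * D + 1) ^ m) := ⟨_, rfl⟩
    have key := hvol A (T \ bad) ρ X (1 / (2 * Q)) hρ0 hρ1 (by rw [hX]; positivity) (by positivity) hTv2 ?_
    · refine le_trans (ENNReal.ofReal_le_ofReal ?_) key
      have e2 : ρ = Real.exp (-(N * Real.log B)) := by
        rw [Real.exp_neg, mul_comm, Real.exp_mul, Real.exp_log hB0, Real.rpow_natCast, hρB]
      have e3 : Real.exp ((m - (h + e0) - 2 * Q * e1) * N * Real.log B) * ρ ^ m =
          ρ ^ (h + e0 + 2 * Q * e1) := by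
        rw [e2, ← Real.exp_nat_mul, ← Real.exp_add, ← Real.exp_mul]
        congr 1
        ring
      have e4 : ρ ^ (h + e) ≤ ρ ^ (h + e0 + 2 * Q * e1) := by
        refine Real.rpow_le_rpow_of_exponent_ge hρ0 hρ1 ?_
        have : 2 * (Q : ℝ) * e1 = e / 4 := by
          rw [he1]
          field_simp
          norm_num
        linarith
      rw [hX]
      calc cv * (1 / (2 * Q)) / (2 ^ Q * (2 * D + 1) ^ m) * ρ ^ (h + e)
          ≤ cv * (1 / (2 * Q)) / (2 ^ Q * (2 * D + 1) ^ m) * ρ ^ (h + e0 + 2 * Q * e1) :=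
            mul_le_mul_of_nonneg_left e4 (by positivity)
        _ = _ := by
            rw [← e3]
            ring
    · intro t ht
      have htI := hT ht.1
      have hnb : (m - (h + e0) - e1) * N * Real.log B ≤
          ent (univ : Finset (Fin N → Fin K)) (fun u => fl (σ.P B t 0 N u)) := by
        by_contra hcon
        push Not at hcon
        exact ht.2 ⟨htI.1, htI.2, hcon⟩
      obtain ⟨F, hF1, hF2, hF3⟩ := isc_slice hPB hENT Q N r σ (a 0) A hB2 hR' htI.1 htI.2 hok hQ hK1 D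
        (Nat.le_ceil _) hlog2 hK3 hnb (by
          have := hcov t ht.1
          convert this)
      exact ⟨F, a 0, hF1, hF2, by rw [hX]; exact hF3⟩

end Pool.Agent.Helper70.DK
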