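import Pool.Agent.Helper39.DK.IDefs
import Pool.Agent.Helper70.DK.Wrap

/-! Intermediate dimensions: segments over an arbitrary interval of heights. -/

set_option autoImplicit false

namespace Pool.Agent.Helper70.DK

open Finset MeasureTheory

theorem iwr_ediam {m : ℕ} (lam t0 : ℝ) (hlam : 0 < lam) (U : Set (EuclideanSpace ℝ (Fin (m + 1)))) (d : ℝ)
    (hd : 0 ≤ d) (hU : Metric.ediam U = ENNReal.ofReal d) :
    Metric.ediam (wr_Phi lam t0 '' U) = ENNReal.ofReal (lam * d) := by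
  have he : ∀ p q : EuclideanSpace ℝ (Fin (m + 1)), edist (wr_Phi lam t0 p) (wr_Phi lam t0 q) =
      ENNReal.ofReal lam * edist p q := by
    intro p q
    rw [edist_dist, wr_dist lam t0 hlam.le, ENNReal.ofReal_mul hlam.le, edist_dist]
  have hl0 : ENNReal.ofReal lam ≠ 0 := by
    rw [Ne, ENNReal.ofReal_eq_zero, not_le]
    exact hlam
  rw [ENNReal.ofReal_mul hlam.le, ← hU]
  apply le_antisymm
  · rw [Metric.ediam_image_le_iff]
    intro x hx y hy
    rw [he]
    gcongr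
    exact Metric.edist_le_ediam_of_mem hx hy
  · rw [mul_comm, ← ENNReal.le_div_iff_mul_le (Or.inl hl0) (Or.inl ENNReal.ofReal_ne_top)]
    rw [Metric.ediam_le_iff]
    intro x hx y hy
    rw [ENNReal.le_div_iff_mul_le (Or.inl hl0) (Or.inl ENNReal.ofReal_ne_top), mul_comm, ← he]
    exact Metric.edist_le_ediam_of_mem (Set.mem_image_of_mem _ hx) (Set.mem_image_of_mem _ hy)

theorem iwr_I (h : ST_IFIN) : ST_ITHM := by
  intro m b L N R t0 t1 θ s hm hb hL hN hR ht hθ hθ1 hs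
  obtain ⟨lam, hlam1, hlam⟩ := wr_lam b hb (t1 - t0) (by linarith)
  have hlam0 : 0 < lam := by linarith
  obtain ⟨s', hs1, hs2⟩ := exists_between hs
  obtain ⟨δ1, hδ1, H⟩ := h m b L N (lam * R + lam * |t0|) (θ / 2) s' hm hb hL hN (by positivity)
    (by positivity) (by linarith) hs2
  have hss : 0 < s' - s := by linarith
  obtain ⟨x, hx⟩ : ∃ x : ℝ, x = (lam ^ (-|s'|)) ^ (1 / (s' - s)) := ⟨_, rfl⟩
  have hx0 : 0 < x := by rw [hx]; positivity
  refine ⟨min (min (δ1 / lam) ((lam ^ 2)⁻¹)) x, lt_min (lt_min (by positivity) (by positivity)) hx0, ?_⟩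
  intro a E hS hC hE δ hδ hδδ ι _ U hU hd
  have hδa : lam * δ ≤ δ1 := by
    have h1 := hδδ.trans ((min_le_left _ _).trans (min_le_left _ _))
    rw [le_div_iff₀ hlam0] at h1
    linarith
  have hδb : lam ^ 2 * δ ≤ 1 := by
    have h1 := hδδ.trans ((min_le_left _ _).trans (min_le_right _ _))
    calc lam ^ 2 * δ ≤ lam ^ 2 * (lam ^ 2)⁻¹ := by gcongr
      _ = 1 := mul_inv_cancel₀ (by positivity)
  have hδc : δ ≤ x := hδδ.trans (min_le_right _ _)
  have hdt : ∀ i, Metric.ediam (U i) ≠ ⊤ := fun i => ((hd i).2.trans_lt ENNReal.ofReal_lt_top).ne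
  obtain ⟨d, hdd⟩ : ∃ d : ι → ℝ, ∀ i, Metric.ediam (U i) = ENNReal.ofReal (d i) ∧ 0 ≤ d i :=
    ⟨fun i => (Metric.ediam (U i)).toReal, fun i => ⟨(ENNReal.ofReal_toReal (hdt i)).symm,
      ENNReal.toReal_nonneg⟩⟩
  have hd1 : ∀ i, δ ^ (1 / θ) ≤ d i := by
    intro i
    have h1 := (hd i).1
    rw [(hdd i).1, ENNReal.ofReal_le_ofReal_iff (hdd i).2] at h1
    exact h1
  have hd2 : ∀ i, d i ≤ δ := by
    intro i
    have h1 := (hd i).2
    rw [(hdd i).1, ENNReal.ofReal_le_ofReal_iff hδ.le] at h1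
    exact h1
  have hd0 : ∀ i, 0 < d i := fun i => lt_of_lt_of_le (by positivity) (hd1 i)
  have key := H (wr_a a lam t0) (wr_Phi lam t0 '' E) (wr_sticky a lam t0 R hlam0.le b hb hS)
    (wr_cplx a lam t0 b L N hb hC) (wr_mem a E lam t0 t1 hlam0 hlam hE) (lam * δ) (by positivity) hδa ι
    (fun i => wr_Phi lam t0 '' (U i)) (by
      rw [← Set.image_iUnion]
      exact Set.image_mono hU) (by
      intro i
      rw [iwr_ediam lam t0 hlam0 (U i) (d i) (hdd i).2 (hdd i).1]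
      constructor
      · apply ENNReal.ofReal_le_ofReal
        have e1 : (1 : ℝ) / (θ / 2) = 2 * (1 / θ) := by field_simp
        rw [e1, Real.rpow_mul (by positivity), Real.rpow_two]
        have h1 : (lam * δ) ^ 2 ≤ δ := by nlinarith
        calc ((lam * δ) ^ 2) ^ (1 / θ) ≤ δ ^ (1 / θ) :=
              Real.rpow_le_rpow (by positivity) h1 (by positivity)
          _ ≤ d i := hd1 i
          _ ≤ lam * d i := by nlinarith [hd0 i]
      · apply ENNReal.ofReal_le_ofReal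
        exact mul_le_mul_of_nonneg_left (hd2 i) hlam0.le)
  refine key.trans (ENNReal.tsum_le_tsum (fun i => ?_))
  rw [iwr_ediam lam t0 hlam0 (U i) (d i) (hdd i).2 (hdd i).1, (hdd i).1,
    ENNReal.ofReal_rpow_of_pos (by have := hd0 i; positivity), ENNReal.ofReal_rpow_of_pos (hd0 i)]
  apply ENNReal.ofReal_le_ofReal
  have hdi := hd0 i
  rw [Real.mul_rpow hlam0.le hdi.le]
  have h1 : d i ^ s' = d i ^ (s' - s) * d i ^ s := by
    rw [← Real.rpow_add hdi]
    congr 1
    ring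
  have h2 : d i ^ (s' - s) ≤ lam ^ (-|s'|) := by
    calc d i ^ (s' - s) ≤ x ^ (s' - s) := Real.rpow_le_rpow hdi.le ((hd2 i).trans hδc) hss.le
      _ = lam ^ (-|s'|) := by
        rw [hx, ← Real.rpow_mul (by positivity)]
        have : 1 / (s' - s) * (s' - s) = 1 := by field_simp
        rw [this, Real.rpow_one]
  have h3 : lam ^ s' * lam ^ (-|s'|) ≤ 1 := by
    rw [← Real.rpow_add hlam0]
    refine Real.rpow_le_one_of_one_le_of_nonpos hlam1 ?_
    linarith [le_abs_self s']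
  calc lam ^ s' * d i ^ s' = lam ^ s' * d i ^ (s' - s) * d i ^ s := by rw [h1]; ring
    _ ≤ lam ^ s' * lam ^ (-|s'|) * d i ^ s := by gcongr
    _ ≤ 1 * d i ^ s := by gcongr
    _ = d i ^ s := one_mul _

end Pool.Agent.Helper70.DK
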