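import Pool.Agent.Helper39.DK.IDefs
import Pool.Agent.Helper50.DK.VOL

/-! VOLB: many separated points on the slices give a large neighbourhood. -/

set_option autoImplicit false

namespace Pool.Agent.Helper70.DK

open Finset MeasureTheory

theorem st_VOLB : ST_VOLB := by
  intro m
  have hm0 : (0 : ℝ) < m + 1 := by positivity
  refine ⟨1 / (2 ^ m * (m + 1) ^ m), by positivity, ?_⟩
  intro E T ρ X lam hρ hρ1 hX hlam hTv h
  have hr : 0 < ρ / (2 * (m + 1)) := by positivity
  obtain ⟨r, hrdef⟩ : ∃ r : ℝ, r = ρ / (2 * (m + 1)) := ⟨_, rfl⟩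
  rw [← hrdef] at hr
  have h2r : 2 * r = ρ / (m + 1) := by
    rw [hrdef]
    field_simp
  have h2r' : 2 * r ≤ ρ := by
    rw [h2r]
    exact div_le_self hρ.le (by linarith [Nat.cast_nonneg (α := ℝ) m])
  have hU : MeasurableSet (Metric.thickening ρ E) := Metric.isOpen_thickening.measurableSet
  obtain ⟨hfub, hmeas⟩ := vol_fub (Metric.thickening ρ E) hU
  set s : ℝ → ENNReal := fun t => volume {y : Fin m → ℝ | pt y t ∈ Metric.thickening ρ E} with hs
  -- lower bound on the slices
  have hlow : ∀ t ∈ T, ENNReal.ofReal (X * (2 * r) ^ m / 2 ^ m) ≤ s t := by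
    intro t ht
    obtain ⟨F, x0, hF1, hF2, hF3⟩ := h t ht
    have h1 := vol_slice m {y : Fin m → ℝ | pt y t ∈ Metric.thickening ρ E} F x0 ρ r hρ hr h2r'
      (fun y hy y' hyy' => by
        show pt y' t ∈ Metric.thickening ρ E
        rw [Metric.mem_thickening_iff]
        refine ⟨pt y t, hF1 y hy, ?_⟩
        refine lt_of_lt_of_le (vol_dist y y' t r hr hyy') ?_
        have : (m + 1 : ℝ) * r = ρ / 2 := by
          rw [hrdef]
          field_simp
        rw [this]
        linarith) hF2
    have h3 : ENNReal.ofReal X ≤ (F.card : ENNReal) := by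
      rw [← ENNReal.ofReal_natCast]
      exact ENNReal.ofReal_le_ofReal hF3
    have h4 : ENNReal.ofReal X * ENNReal.ofReal ((2 * r) ^ m) ≤ 2 ^ m * s t :=
      le_trans (by gcongr) h1
    rw [← ENNReal.ofReal_mul hX] at h4
    rw [ENNReal.ofReal_div_of_pos (by positivity)]
    rw [ENNReal.div_le_iff_le_mul (Or.inl (by
      rw [Ne, ENNReal.ofReal_eq_zero, not_le]
      positivity)) (Or.inl ENNReal.ofReal_ne_top)]
    refine h4.trans (le_of_eq ?_)
    rw [mul_comm, ENNReal.ofReal_pow (by norm_num)]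
    simp
  have hmono : ENNReal.ofReal lam ≤
      volume {t : ℝ | ENNReal.ofReal (X * (2 * r) ^ m / 2 ^ m) ≤ s t} :=
    hTv.trans (measure_mono hlow)
  have hmk := mul_meas_ge_le_lintegral hmeas (μ := volume)
    (ENNReal.ofReal (X * (2 * r) ^ m / 2 ^ m))
  rw [hfub]
  refine le_trans ?_ hmk
  refine le_trans ?_ (mul_le_mul_right hmono _)
  rw [← ENNReal.ofReal_mul (by positivity)]
  apply ENNReal.ofReal_le_ofReal
  rw [h2r, div_pow]
  apply le_of_eq
  field_simp

end Pool.Agent.Helper70.DK
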