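import Pool.Agent.Helper39.DK.IFIN
import Pool.Agent.Helper39.DK.ISC
import Pool.Agent.Helper39.DK.IWRAP
import Pool.Agent.Helper39.DK.ENTSUB
import Pool.Agent.Helper39.DK.COREMB
import Pool.Agent.Helper39.DK.VOLB
import Pool.Agent.Helper70.DK.CORE
import Pool.Agent.Helper70.DK.CPOW
import Pool.Agent.Helper8.DK.AUTC

/-! Intermediate dimensions of sticky Kakeya sets: assembly. -/

set_option autoImplicit false

namespace Pool.Agent.Helper70.DK

open Finset MeasureTheory Filter Topology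

theorem imain_COREMB : ST_COREMB := st_COREMB core_CLAIM core_DGOOD (st_DMEAS st_SUBL) core_SUP st_FRM st_E1

theorem imain_I : ST_ITHM :=
  iwr_I (st_IFIN (st_ISC st_AUTC st_CPOW st_VOLB st_PB (st_ENTSUB st_E1 st_E2 st_E3) imain_COREMB))

/-- a uniform form: the diameters of the cover may vary in a super-polynomial range -/
theorem imain_omega : ∀ (m b L N : ℕ) (R t0 t1 s : ℝ), 1 ≤ m → 2 ≤ b → 1 ≤ L → 1 ≤ N → 0 ≤ R → t0 < t1 →
    s < m + 1 - Real.log N / (L * Real.log b) → ∃ w : ℝ → ℝ, Tendsto w (𝓝[>] 0) atTop ∧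
    ∀ (a : (Fin m → ℝ) → Fin m → ℝ) (E : Set (EuclideanSpace ℝ (Fin (m + 1)))), Sticky a b R → Cplx a b L N →
      (∀ x ∈ cube m, ∀ t : ℝ, t0 ≤ t → t ≤ t1 → pt (fun c => a x c + t * x c) t ∈ E) →
      ∀ δ : ℝ, 0 < δ → δ < 1 → ∀ (ι : Type) [Countable ι] (U : ι → Set (EuclideanSpace ℝ (Fin (m + 1)))),
        E ⊆ ⋃ i, U i →
        (∀ i, ENNReal.ofReal (δ ^ w δ) ≤ Metric.ediam (U i) ∧ Metric.ediam (U i) ≤ ENNReal.ofReal δ) →
        1 ≤ ∑' i, Metric.ediam (U i) ^ s := by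
  classical
  intro m b L N R t0 t1 s hm hb hL hN hR ht hs
  have hθ : ∀ n : ℕ, ∃ δ0 : ℝ, 0 < δ0 ∧ (1 ≤ n →
    ∀ (a : (Fin m → ℝ) → Fin m → ℝ) (E : Set (EuclideanSpace ℝ (Fin (m + 1)))), Sticky a b R → Cplx a b L N →
      (∀ x ∈ cube m, ∀ t : ℝ, t0 ≤ t → t ≤ t1 → pt (fun c => a x c + t * x c) t ∈ E) →
      ∀ δ : ℝ, 0 < δ → δ ≤ δ0 → ∀ (ι : Type) [Countable ι] (U : ι → Set (EuclideanSpace ℝ (Fin (m + 1)))),
        E ⊆ ⋃ i, U i →
        (∀ i, ENNReal.ofReal (δ ^ (1 / (1 / (n : ℝ)))) ≤ Metric.ediam (U i) ∧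
          Metric.ediam (U i) ≤ ENNReal.ofReal δ) →
        1 ≤ ∑' i, Metric.ediam (U i) ^ s) := by
    intro n
    by_cases hn : 1 ≤ n
    · have hn0 : (0 : ℝ) < n := by exact_mod_cast hn
      obtain ⟨δ0, h1, h2⟩ := imain_I m b L N R t0 t1 (1 / n) s hm hb hL hN hR ht (by positivity) (by
        rw [div_le_one hn0]
        exact_mod_cast hn) hs
      exact ⟨δ0, h1, fun _ => h2⟩
    · exact ⟨1, one_pos, fun h => absurd h hn⟩
  choose D hD0 hD using hθ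
  refine ⟨fun δ => (Nat.findGreatest (fun n => δ ≤ min (D n) (1 / ((n : ℝ) + 1))) ⌈1 / δ⌉₊ : ℕ), ?_, ?_⟩
  · rw [tendsto_atTop]
    intro x
    obtain ⟨n, hn⟩ := exists_nat_ge x
    have hpos : 0 < min (D n) (1 / ((n : ℝ) + 1)) := lt_min (hD0 n) (by positivity)
    filter_upwards [Ioo_mem_nhdsGT hpos] with δ hδ
    refine hn.trans ?_
    have h1 : n ≤ Nat.findGreatest (fun n => δ ≤ min (D n) (1 / ((n : ℝ) + 1))) ⌈1 / δ⌉₊ := by
      refine Nat.le_findGreatest ?_ hδ.2.le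
      have h2 : δ ≤ 1 / ((n : ℝ) + 1) := hδ.2.le.trans (min_le_right _ _)
      rw [le_div_iff₀ (by positivity)] at h2
      have h3 : (n : ℝ) ≤ 1 / δ := by
        rw [le_div_iff₀ hδ.1]
        have := hδ.1
        nlinarith
      exact_mod_cast h3.trans (Nat.le_ceil _)
    exact_mod_cast h1
  · intro a E hS hC hE δ hδ0 hδ1 ι _ U hU hd
    obtain ⟨n, hn⟩ : ∃ n : ℕ, n = Nat.findGreatest (fun n => δ ≤ min (D n) (1 / ((n : ℝ) + 1))) ⌈1 / δ⌉₊ :=
      ⟨_, rfl⟩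
    simp only [← hn] at hd
    rcases Nat.eq_zero_or_pos n with h0 | h0
    · exfalso
      have hz : (0 : Fin m → ℝ) ∈ cube m := fun c => ⟨le_rfl, zero_lt_one⟩
      obtain ⟨i, -⟩ := Set.mem_iUnion.1 (hU (hE 0 hz t0 le_rfl ht.le))
      have h1 := (hd i).1.trans (hd i).2
      rw [h0, Nat.cast_zero, Real.rpow_zero, ENNReal.ofReal_le_ofReal_iff hδ0.le] at h1
      linarith
    · have h1 : δ ≤ min (D n) (1 / ((n : ℝ) + 1)) := by
        have := Nat.findGreatest_of_ne_zero hn.symm (by omega)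
        exact this
      refine hD n h0 a E hS hC hE δ hδ0 (h1.trans (min_le_left _ _)) ι U hU (fun i => ?_)
      rw [one_div_one_div]
      exact hd i

end Pool.Agent.Helper70.DK
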